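import Pool.Agent.helper1.T1N.SpecN

/-!
# Project T1 (MP_07c750_an), row `t1:NBC`: the fourth moment (dyadic sum)
-/

set_option autoImplicit false

open MeasureTheory Finset

namespace Pool.Agent.T1N

noncomputable section

/-- the number of intervals of length `√(θ/T)/100` -/
theorem NBC_num {T θ : ℝ} (hT : 1 ≤ T) (hθ : 0 < θ) (hθ1 : θ ≤ 1) :
    ((⌊(1 / 2) / (Real.sqrt (θ / T) / 100)⌋₊ + 1 : ℕ) : ℝ) ≤ 51 * Real.sqrt (T / θ) := by
  have hT0 : 0 < T := by linarith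
  have h1 : Real.sqrt (θ / T) = (Real.sqrt (T / θ))⁻¹ := by
    rw [← Real.sqrt_inv, inv_div]
  have h2 : 1 ≤ Real.sqrt (T / θ) := by
    rw [Real.one_le_sqrt, le_div_iff₀ hθ]
    linarith
  have h3 : (1 / 2) / (Real.sqrt (θ / T) / 100) = 50 * Real.sqrt (T / θ) := by
    rw [h1]
    field_simp
    norm_num
  rw [h3]
  push_cast
  have h4 : ((⌊50 * Real.sqrt (T / θ)⌋₊ : ℕ) : ℝ) ≤ 50 * Real.sqrt (T / θ) := Nat.floor_le (by positivity)
  linarith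

/-- the bound for one scale -/
theorem NBC_scale {L θ N : ℝ} (hL : 1 ≤ L) (hθ : 0 < θ) (hθ1 : θ ≤ 1) (hN : 0 ≤ N) (i : ℕ) :
    Real.sqrt (2 ^ i * L / θ) * (N / (2 ^ i * L)) * (θ ^ 4)⁻¹ ≤ (θ ^ 5)⁻¹ * (N / Real.sqrt L) * (3 / 4) ^ i := by
  have hL0 : 0 < L := by linarith
  have hT0 : 0 < 2 ^ i * L := by positivity
  have h1 : Real.sqrt (2 ^ i * L / θ) = Real.sqrt (2 ^ i * L) / Real.sqrt θ := Real.sqrt_div' _ hθ.le
  have h2 : (Real.sqrt θ)⁻¹ ≤ θ⁻¹ := by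
    apply inv_anti₀ hθ
    exact Real.le_sqrt_of_sq_le (by nlinarith)
  have h3 : Real.sqrt (2 ^ i * L) / (2 ^ i * L) = (Real.sqrt (2 ^ i * L))⁻¹ := by
    rw [Real.sqrt_div_self]
  have h4 : (Real.sqrt (2 ^ i * L))⁻¹ ≤ (Real.sqrt L)⁻¹ * (3 / 4) ^ i := by
    have h5 : (4 / 3 : ℝ) ^ i * Real.sqrt L ≤ Real.sqrt (2 ^ i * L) := by
      rw [Real.sqrt_mul (by positivity)]
      refine mul_le_mul_of_nonneg_right ?_ (Real.sqrt_nonneg _)
      refine Real.le_sqrt_of_sq_le ?_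
      rw [← pow_mul, mul_comm i 2, pow_mul]
      exact pow_le_pow_left₀ (by norm_num) (by norm_num) i
    have h6 : (3 / 4 : ℝ) ^ i = ((4 / 3 : ℝ) ^ i)⁻¹ := by
      rw [← inv_pow]
      norm_num
    rw [h6, ← mul_inv, mul_comm (Real.sqrt L)]
    exact inv_anti₀ (by positivity) h5
  have h5 : Real.sqrt (2 ^ i * L / θ) * (N / (2 ^ i * L)) = (Real.sqrt θ)⁻¹ * N * (Real.sqrt (2 ^ i * L) / (2 ^ i * L)) := by
    rw [h1]
    ring
  rw [h5, h3]
  have h6 : (θ ^ 5)⁻¹ = θ⁻¹ * (θ ^ 4)⁻¹ := by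
    rw [← mul_inv]
    congr 1
    ring
  rw [h6]
  calc (Real.sqrt θ)⁻¹ * N * (Real.sqrt (2 ^ i * L))⁻¹ * (θ ^ 4)⁻¹ ≤ θ⁻¹ * N * ((Real.sqrt L)⁻¹ * (3 / 4) ^ i) * (θ ^ 4)⁻¹ := by
        refine mul_le_mul_of_nonneg_right ?_ (by positivity)
        exact mul_le_mul (mul_le_mul_of_nonneg_right h2 hN) h4 (by positivity) (by positivity)
    _ = θ⁻¹ * (θ ^ 4)⁻¹ * (N / Real.sqrt L) * (3 / 4) ^ i := by ring

theorem NBC_geom (n : ℕ) : ∑ i ∈ range n, (3 / 4 : ℝ) ^ i ≤ 4 := by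
  have h := mul_neg_geom_sum (3 / 4 : ℝ) n
  have h1 : 0 ≤ (3 / 4 : ℝ) ^ n := by positivity
  linarith

theorem NBC_proof (hNLC : NLC_stmt) (hNEE : NEE_stmt) : NBC_stmt := by
  classical
  obtain ⟨C, hC, hNL⟩ := hNLC
  refine ⟨204 * C, by linarith, ?_⟩
  intro N L θ U A hL hLN hθ hθ1 hU hU2 hUs hA hAs hex
  have hN1 : 1 ≤ N := hL.trans hLN
  have hN0 : 0 ≤ N := by linarith
  have hlog : 0 ≤ Real.log N := Real.log_nonneg hN1
  have hex' : ∀ X ∈ A, ∃ t : ℝ, L ≤ t ∧ t ≤ N ∧ θ * U.card ≤ ‖EE U t X‖ := by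
    intro X hX
    obtain ⟨t, h1, h2, h3⟩ := hex X hX
    refine ⟨|t|, h1, h2, ?_⟩
    rcases abs_choice t with h | h
    · rwa [h]
    · rw [h, hNEE.2.2.2.2.2.1]
      exact h3
  choose! t ht1 ht2 ht3 using hex'
  have hex2 : ∀ X ∈ A, ∃ i : ℕ, 2 ^ i * L ≤ t X ∧ t X ≤ 2 * (2 ^ i * L) := by
    intro X hX
    have hL0 : 0 < L := by linarith
    obtain ⟨i, h1, h2⟩ := exists_nat_pow_near (x := t X / L) (y := (2 : ℝ)) (by rw [le_div_iff₀ hL0]; linarith [ht1 X hX]) (by norm_num)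
    refine ⟨i, (le_div_iff₀ hL0).1 h1, ?_⟩
    have h3 := (div_lt_iff₀ hL0).1 h2
    rw [pow_succ] at h3
    linarith
  choose! j hj1 hj2 using hex2
  have hT1 : ∀ i : ℕ, 1 ≤ 2 ^ i * L := fun i => one_le_mul_of_one_le_of_one_le (one_le_pow₀ (by norm_num)) hL
  -- one cell
  have hcell : ∀ i k : ℕ, ((A.filter fun X => j X = i ∧ ⌊(X + 1 / 4) / (Real.sqrt (θ / (2 ^ i * L)) / 100)⌋₊ = k).card : ℝ) ≤
      C * (N / (2 ^ i * L)) * (θ ^ 4)⁻¹ * (N / U.card) ^ 3 * (1 + Real.log N) := by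
    intro i k
    have hT0 : 0 < 2 ^ i * L := by linarith [hT1 i]
    have hr : 0 < Real.sqrt (θ / (2 ^ i * L)) / 100 := by positivity
    rcases (A.filter fun X => j X = i ∧ ⌊(X + 1 / 4) / (Real.sqrt (θ / (2 ^ i * L)) / 100)⌋₊ = k).eq_empty_or_nonempty with h0 | ⟨X₁, hX₁⟩
    · rw [h0, card_empty, Nat.cast_zero]
      positivity
    · have hkey : ∀ X ∈ A.filter (fun X => j X = i ∧ ⌊(X + 1 / 4) / (Real.sqrt (θ / (2 ^ i * L)) / 100)⌋₊ = k),
          X ∈ A ∧ j X = i ∧ (k : ℝ) * (Real.sqrt (θ / (2 ^ i * L)) / 100) ≤ X + 1 / 4 ∧ X + 1 / 4 < ((k : ℝ) + 1) * (Real.sqrt (θ / (2 ^ i * L)) / 100) := by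
        intro X hX
        obtain ⟨hXA, hXj, hXk⟩ := mem_filter.1 hX
        have h1 := abs_le.1 (hA X hXA)
        refine ⟨hXA, hXj, ?_, ?_⟩
        · rw [← le_div_iff₀ hr, ← hXk]
          exact Nat.floor_le (div_nonneg (by linarith) hr.le)
        · rw [← div_lt_iff₀ hr, ← hXk]
          exact Nat.lt_floor_add_one _
      obtain ⟨hXA₁, hXj₁, h1, h2⟩ := hkey X₁ hX₁
      have h3 := abs_le.1 (hA X₁ hXA₁)
      have hTN : 2 ^ i * L ≤ N := by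
        have := hj1 X₁ hXA₁
        rw [hXj₁] at this
        exact this.trans (ht2 X₁ hXA₁)
      refine hNL N (2 ^ i * L) θ (-(1 / 4) + k * (Real.sqrt (θ / (2 ^ i * L)) / 100)) U _ (hT1 i) hTN hθ hθ1 hU hU2 hUs ?_ ?_ ?_ ?_
      · rw [abs_le]
        constructor
        · have : 0 ≤ (k : ℝ) * (Real.sqrt (θ / (2 ^ i * L)) / 100) := by positivity
          linarith
        · linarith
      · intro X hX
        obtain ⟨hXA, -, h4, h5⟩ := hkey X hX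
        refine ⟨hA X hXA, ?_⟩
        rw [abs_le]
        constructor <;> linarith
      · intro X hX Y hY hXY
        exact hAs X (hkey X hX).1 Y (hkey Y hY).1 hXY
      · intro X hX
        obtain ⟨hXA, hXj, -, -⟩ := hkey X hX
        refine ⟨t X, ?_, ?_, ht3 X hXA⟩
        · rw [← hXj]
          exact hj1 X hXA
        · rw [← hXj]
          exact hj2 X hXA
  -- one scale
  have hscale : ∀ i : ℕ, ((A.filter fun X => j X = i).card : ℝ) ≤
      51 * C * ((θ ^ 5)⁻¹ * (N / U.card) ^ 3 * (N / Real.sqrt L) * (1 + Real.log N)) * (3 / 4) ^ i := by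
    intro i
    have hT0 : 0 < 2 ^ i * L := by linarith [hT1 i]
    have hr : 0 < Real.sqrt (θ / (2 ^ i * L)) / 100 := by positivity
    have h1 : (A.filter fun X => j X = i).card = ∑ k ∈ range (⌊(1 / 2) / (Real.sqrt (θ / (2 ^ i * L)) / 100)⌋₊ + 1),
        ((A.filter fun X => j X = i).filter fun X => ⌊(X + 1 / 4) / (Real.sqrt (θ / (2 ^ i * L)) / 100)⌋₊ = k).card := by
      refine card_eq_sum_card_fiberwise fun X hX => ?_
      rw [mem_coe, mem_filter] at hX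
      have h3 := abs_le.1 (hA X hX.1)
      rw [mem_coe, mem_range, Nat.lt_succ_iff]
      exact Nat.floor_le_floor (div_le_div_of_nonneg_right (by linarith) hr.le)
    rw [h1]
    push_cast
    have h2 : ∀ k ∈ range (⌊(1 / 2) / (Real.sqrt (θ / (2 ^ i * L)) / 100)⌋₊ + 1),
        (((A.filter fun X => j X = i).filter fun X => ⌊(X + 1 / 4) / (Real.sqrt (θ / (2 ^ i * L)) / 100)⌋₊ = k).card : ℝ) ≤
        C * (N / (2 ^ i * L)) * (θ ^ 4)⁻¹ * (N / U.card) ^ 3 * (1 + Real.log N) := by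
      intro k _
      rw [filter_filter]
      exact hcell i k
    refine (sum_le_sum h2).trans ?_
    rw [sum_const, card_range, nsmul_eq_mul]
    have h4 := NBC_num (hT1 i) hθ hθ1
    have h5 := NBC_scale hL hθ hθ1 hN0 i
    have hW : 0 ≤ (N / U.card : ℝ) ^ 3 * (1 + Real.log N) := by positivity
    calc ((⌊(1 / 2) / (Real.sqrt (θ / (2 ^ i * L)) / 100)⌋₊ + 1 : ℕ) : ℝ) * (C * (N / (2 ^ i * L)) * (θ ^ 4)⁻¹ * (N / U.card) ^ 3 * (1 + Real.log N)) ≤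
        51 * Real.sqrt (2 ^ i * L / θ) * (C * (N / (2 ^ i * L)) * (θ ^ 4)⁻¹ * (N / U.card) ^ 3 * (1 + Real.log N)) :=
          mul_le_mul_of_nonneg_right h4 (by positivity)
      _ = 51 * C * (Real.sqrt (2 ^ i * L / θ) * (N / (2 ^ i * L)) * (θ ^ 4)⁻¹) * ((N / U.card) ^ 3 * (1 + Real.log N)) := by ring
      _ ≤ 51 * C * ((θ ^ 5)⁻¹ * (N / Real.sqrt L) * (3 / 4) ^ i) * ((N / U.card) ^ 3 * (1 + Real.log N)) := by
          refine mul_le_mul_of_nonneg_right ?_ hW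
          exact mul_le_mul_of_nonneg_left h5 (by linarith)
      _ = 51 * C * ((θ ^ 5)⁻¹ * (N / U.card) ^ 3 * (N / Real.sqrt L) * (1 + Real.log N)) * (3 / 4) ^ i := by ring
  -- the sum
  have h1 : A.card = ∑ i ∈ range (A.sup j + 1), (A.filter fun X => j X = i).card := by
    refine card_eq_sum_card_fiberwise fun X hX => ?_
    rw [mem_coe, mem_range, Nat.lt_succ_iff]
    exact le_sup (mem_coe.1 hX)
  rw [h1]
  push_cast
  refine (sum_le_sum fun i _ => hscale i).trans ?_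
  rw [← mul_sum]
  have hW : 0 ≤ (θ ^ 5)⁻¹ * (N / U.card : ℝ) ^ 3 * (N / Real.sqrt L) * (1 + Real.log N) := by positivity
  have h2 := NBC_geom (A.sup j + 1)
  calc 51 * C * ((θ ^ 5)⁻¹ * (N / U.card) ^ 3 * (N / Real.sqrt L) * (1 + Real.log N)) * ∑ i ∈ range (A.sup j + 1), (3 / 4 : ℝ) ^ i ≤
      51 * C * ((θ ^ 5)⁻¹ * (N / U.card) ^ 3 * (N / Real.sqrt L) * (1 + Real.log N)) * 4 :=
        mul_le_mul_of_nonneg_left h2 (mul_nonneg (by linarith) hW)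
    _ = 204 * C * (θ ^ 5)⁻¹ * (N / U.card) ^ 3 * (N / Real.sqrt L) * (1 + Real.log N) := by ring

end

end Pool.Agent.T1N
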